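import Pool.Agent.helper70.LZ.SpecW
import Pool.Agent.helper58.LZ.ZNV

/-!
# Project LE / NA, block BOUND-ZN, row WTR: the trace `W` from `K = C_G(z)` to `G`
-/

set_option autoImplicit false

namespace Pool.Agent.LE

open Pool.Agent.helper58.DC Pool.Agent.DI Pool.Agent.GR Pool.Agent.OB Pool.Agent.DR Pool.Agent.FI Pool.Agent.FI3 Pool.Agent.FI4

theorem WTR_main {G : Type} [Group G] [Finite G] (p : ℕ) (K : Subgroup G) (z : G) (hcom : ∀ k ∈ K, z * k = k * z)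
    (η₀ : G → ℂ) (hη : η₀ ∈ IrrOn K) :
    ∃ W : G → ℂ, CF (⊤ : Subgroup G) W ∧ (∀ x, IsIntegral ℤ (W x)) ∧
      ∀ ψ ∈ IrrOn (⊤ : Subgroup G), cc ψ W = (Nat.card G : ℂ) * az p K η₀ ψ z / ψ 1 := by
  classical
  have : Fintype G := Fintype.ofFinite G
  have : Fintype (G ⧸ K) := Fintype.ofFinite _
  have hK0 : (Nat.card K : ℂ) ≠ 0 := by exact_mod_cast Nat.card_pos.ne'
  obtain ⟨w, hw⟩ : ∃ w : G → G → ℂ, w = fun g x => kap p K η₀ (z⁻¹ * (g⁻¹ * x * g)) := ⟨_, rfl⟩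
  have hwk : ∀ x g : G, ∀ k ∈ K, w (g * k) x = w g x := by
    intro x g k hk
    rw [hw]
    exact ZNV_cos p K z hcom η₀ hη x g hk
  obtain ⟨W, hW⟩ : ∃ W : G → ℂ, W = fun x => ∑ q : G ⧸ K, w q.out x := ⟨_, rfl⟩
  have hWs : ∀ x, (Nat.card K : ℂ) * W x = ∑ g, w g x := by
    intro x
    rw [ZNV_sumq K (fun g => w g x) (fun g k hk => hwk x g k hk), hW]
  have hWc : ∀ h x, W (h * x * h⁻¹) = W x := by
    intro h x
    apply mul_left_cancel₀ hK0
    rw [hWs (h * x * h⁻¹), hWs x, ← Equiv.sum_comp (Equiv.mulLeft h)]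
    refine Finset.sum_congr rfl fun g _ => ?_
    rw [hw]
    show kap p K η₀ (z⁻¹ * ((h * g)⁻¹ * (h * x * h⁻¹) * (h * g))) = kap p K η₀ (z⁻¹ * (g⁻¹ * x * g))
    congr 2
    group
  have hWi : ∀ x, IsIntegral ℤ (W x) := by
    intro x
    rw [hW]
    refine IsIntegral.sum _ fun q _ => ?_
    rw [hw]
    exact ZNV_kap_int p K η₀ hη _
  have hCF : CF (⊤ : Subgroup G) W := ⟨fun h _ x => hWc h x, fun x hx => absurd (Subgroup.mem_top x) hx⟩
  have hcc : ∀ φ : G → ℂ, cc φ W = ∑ q : G ⧸ K, ag p K η₀ φ z q.out := by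
    intro φ
    unfold ag cc
    rw [← Finset.sum_div]
    congr 1
    rw [finsum_eq_sum_of_fintype]
    have h1 : ∀ q : G ⧸ K, ∑ᶠ x, (fun x => kap p K η₀ (z⁻¹ * ((q.out)⁻¹ * x * q.out))) x * φ x =
        ∑ x, w q.out x * φ x := by
      intro q
      rw [finsum_eq_sum_of_fintype, hw]
    rw [Finset.sum_congr rfl (fun q _ => h1 q), Finset.sum_comm]
    refine Finset.sum_congr rfl fun x _ => ?_
    rw [hW, Finset.sum_mul]
  refine ⟨W, hCF, hWi, fun ψ hψ => ?_⟩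
  rw [hcc, Finset.sum_congr rfl (fun q _ => ZNV_ag p K η₀ ψ z _ fun x => IrrOn_conj hψ (Subgroup.mem_top _) x),
    Finset.sum_const, Finset.card_univ, nsmul_eq_mul]
  have h1 : (Nat.card G : ℂ) = (Fintype.card (G ⧸ K) : ℂ) * (Nat.card K : ℂ) := by
    have h2 : Nat.card G = Nat.card (G ⧸ K) * Nat.card K := Subgroup.card_eq_card_quotient_mul_card_subgroup K
    rw [h2, Nat.card_eq_fintype_card (α := G ⧸ K)]
    push_cast
    rfl
  rw [h1]
  ring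

theorem WTR : WTR_stmt := by
  intro p G _ _ z η₀ hη
  exact WTR_main p (Cz (⊤ : Subgroup G) z) z (fun k hk => (mem_Cz.1 hk).2) η₀ hη

end Pool.Agent.LE
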